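import Pool.Agent.Lib_helper64.LDS.Defs

/-!
# LDS, block DET: `log det (1 + A ⊗ A₂ + D ⊗ D₂) = c n + log det M`

`A₂ = F diag(a) Fᴴ`, `D₂ = F diag(d) Fᴴ`, `(FᴴF)⁻¹ = diag g - K`,
`M = ⊕ (g i + a i A + d i D) - K ⊗ 1`. Also the positivity of `M` and of the letters.
-/

set_option autoImplicit false
set_option linter.unusedSectionVars false

open scoped ENNReal ComplexOrder Kronecker

namespace Pool.Agent.LDS

open Matrix MeasureTheory
open Pool.Agent.Lib_helper98.Renyi Pool.Agent.Lib_helper59.Lieb Pool.Agent.Lib_helper59.RCT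

variable {n m κ : Type} [Fintype n] [DecidableEq n] [Fintype m] [DecidableEq m]
  [Fintype κ] [DecidableEq κ]

theorem dt_det_conj {U : Matrix n n ℂ} (hU' : U * Uᴴ = 1) (c : n → ℝ) :
    (U * dg c * Uᴴ).det = ((∏ i, c i : ℝ) : ℂ) := by
  rw [det_mul, det_mul, mul_comm (det U), mul_assoc, ← det_mul, hU', det_one, mul_one,
    det_diagonal, Complex.ofReal_prod]

/-- the determinant of a positive definite matrix -/
theorem dt_det_eq {H : Matrix n n ℂ} (hH : H.PosDef) : H.det = ((Real.exp (Ld H) : ℝ) : ℂ) := by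
  obtain ⟨U, c, hU, hU', hc, rfl⟩ := exists_spectral_pos hH
  rw [dt_det_conj hU', Ld, rtr_cfc_dg hU, Real.exp_sum]
  congr 1
  exact Finset.prod_congr rfl fun i _ => (Real.exp_log (hc i)).symm

theorem dt_trF_nl {X : Matrix n n ℂ} (hX : (1 + X).PosDef) : trF nl X = -Ld (1 + X) := by
  obtain ⟨U, c, hU, hU', hc, h⟩ := exists_spectral_pos hX
  have h1 : X = U * dg (fun i => c i - 1) * Uᴴ := by
    have h2 : dg (fun i => c i - 1) = dg c - (1 : Matrix n n ℂ) := by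
      ext i j
      by_cases hij : i = j
      · subst hij
        simp
      · simp [hij]
    rw [h2, Matrix.mul_sub, Matrix.sub_mul, ← h, Matrix.mul_one, hU', add_sub_cancel_left]
  have h3 : trF nl X = ∑ i, nl (c i - 1) := by
    have := rtr_cfc_dg hU nl fun i => c i - 1
    rw [← h1] at this
    exact this
  rw [h3, Ld, h, rtr_cfc_dg hU, ← Finset.sum_neg_distrib]
  refine Finset.sum_congr rfl fun i _ => ?_
  simp [nl]

theorem dt_gram {F : Matrix κ m ℂ} {g : m → ℝ} {K : Matrix m m ℝ} (h : Obt F g K) :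
    (Fᴴ * F).PosDef ∧ (dg g - cm K).PosDef := by
  have h1 : (Fᴴ * F).PosDef := by
    refine (posSemidef_conjTranspose_mul_self F).posDef_iff_isUnit.2 ?_
    exact (Matrix.isUnit_iff_isUnit_det _).2 (Matrix.isUnit_det_of_right_inverse h.inv)
  refine ⟨h1, ?_⟩
  have h2 : dg g - cm K = (Fᴴ * F)⁻¹ := (Matrix.inv_eq_right_inv h.inv).symm
  rw [h2]
  exact h1.inv

/-- the net with the other order of the factors -/
theorem dt_net_eq (g a d : m → ℝ) (A D : Matrix n n ℂ) (K : Matrix m m ℝ) :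
    net (let3 g a d A D) K =
      ((1 : Matrix n n ℂ) ⊗ₖ (dg g - cm K) + (A ⊗ₖ dg a + D ⊗ₖ dg d)).submatrix
        (Equiv.prodComm m n) (Equiv.prodComm m n) := by
  ext ⟨i, x⟩ ⟨j, y⟩
  simp only [net, bdm, let3, cm, Matrix.sub_apply, Matrix.of_apply, kroneckerMap_apply,
    submatrix_apply, Equiv.prodComm_apply, Prod.swap_prod_mk, Matrix.add_apply, map_apply,
    Matrix.smul_apply, diagonal_apply, one_apply]
  by_cases hij : i = j
  · subst hij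
    by_cases hxy : x = y
    · subst hxy
      simp
      ring
    · simp [hxy]
      ring
  · by_cases hxy : x = y
    · subst hxy
      simp [hij]
    · simp [hij, hxy]

theorem dt_pair {A D : Matrix n n ℂ} (hAD : PP A D) {a d : m → ℝ} (had : ∀ i, |d i| ≤ a i) :
    (A ⊗ₖ dg a + D ⊗ₖ dg d).PosSemidef := by
  have h1 : A ⊗ₖ dg a + D ⊗ₖ dg d =
      (A + D) ⊗ₖ dg (fun i => (a i + d i) / 2) + (A - D) ⊗ₖ dg (fun i => (a i - d i) / 2) := by
    ext ⟨x, i⟩ ⟨y, j⟩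
    simp only [kroneckerMap_apply, Matrix.add_apply, Matrix.sub_apply, diagonal_apply]
    by_cases hij : i = j
    · subst hij
      simp only [if_true]
      push_cast
      ring
    · simp [hij]
  rw [h1]
  refine (hAD.add.kronecker (PosSemidef.diagonal fun i => ?_)).add
    (hAD.sub.kronecker (PosSemidef.diagonal fun i => ?_))
  · have := abs_le.1 (had i)
    exact Complex.zero_le_real.2 (by linarith : (0 : ℝ) ≤ (a i + d i) / 2)
  · have := abs_le.1 (had i)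
    exact Complex.zero_le_real.2 (by linarith : (0 : ℝ) ≤ (a i - d i) / 2)

theorem dt_pos {F : Matrix κ m ℂ} {g : m → ℝ} {K : Matrix m m ℝ} (h : Obt F g K)
    {A D : Matrix n n ℂ} (hAD : PP A D) {a d : m → ℝ} (had : ∀ i, |d i| ≤ a i) :
    ((1 : Matrix n n ℂ) ⊗ₖ (dg g - cm K) + (A ⊗ₖ dg a + D ⊗ₖ dg d)).PosDef :=
  (PosDef.one.kronecker (dt_gram h).2).add_posSemidef (dt_pair hAD had)

theorem dt_net_posDef {F : Matrix κ m ℂ} {g : m → ℝ} {K : Matrix m m ℝ} (h : Obt F g K)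
    {A D : Matrix n n ℂ} (hAD : PP A D) {a d : m → ℝ} (had : ∀ i, |d i| ≤ a i) :
    (net (let3 g a d A D) K).PosDef := by
  rw [dt_net_eq]
  exact (dt_pos h hAD had).submatrix (Equiv.prodComm m n).injective

theorem dt_fact (F : Matrix κ m ℂ) (A D : Matrix n n ℂ) (a d : m → ℝ) :
    A ⊗ₖ (F * dg a * Fᴴ) + D ⊗ₖ (F * dg d * Fᴴ) =
      ((1 : Matrix n n ℂ) ⊗ₖ F) * ((A ⊗ₖ dg a + D ⊗ₖ dg d) * ((1 : Matrix n n ℂ) ⊗ₖ Fᴴ)) := by
  rw [Matrix.add_mul, Matrix.mul_add, ← mul_kronecker_mul, ← mul_kronecker_mul,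
    ← mul_kronecker_mul, ← mul_kronecker_mul, Matrix.mul_one, Matrix.one_mul, Matrix.mul_one,
    Matrix.one_mul, Matrix.mul_assoc, Matrix.mul_assoc]

/-- `log det (1 + A ⊗ A₂ + D ⊗ D₂) = c n + log det M` -/
theorem Obt.det {F : Matrix κ m ℂ} {g : m → ℝ} {K : Matrix m m ℝ} (h : Obt F g K) :
    ∃ c : ℝ, ∀ {n : Type} [Fintype n] [DecidableEq n] {A D : Matrix n n ℂ}, PP A D →
      ∀ {a d : m → ℝ}, (∀ i, |d i| ≤ a i) →
      trF nl (A ⊗ₖ (F * dg a * Fᴴ) + D ⊗ₖ (F * dg d * Fᴴ)) =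
        -(c * Fintype.card n + Ld (net (let3 g a d A D) K)) := by
  refine ⟨Ld (Fᴴ * F), ?_⟩
  intro n _ _ A D hAD a d had
  obtain ⟨hG, hJ⟩ := dt_gram h
  have hX : (1 + (A ⊗ₖ (F * dg a * Fᴴ) + D ⊗ₖ (F * dg d * Fᴴ))).PosDef := by
    refine PosDef.one.add_posSemidef ?_
    rw [dt_fact, ← Matrix.mul_assoc]
    have h1 : ((1 : Matrix n n ℂ) ⊗ₖ Fᴴ) = ((1 : Matrix n n ℂ) ⊗ₖ F)ᴴ := by
      rw [conjTranspose_kronecker, conjTranspose_one]
    rw [h1]
    exact (dt_pair hAD had).mul_mul_conjTranspose_same _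
  rw [dt_trF_nl hX, neg_inj]
  have hdet : (1 + (A ⊗ₖ (F * dg a * Fᴴ) + D ⊗ₖ (F * dg d * Fᴴ))).det =
      (net (let3 g a d A D) K).det * (Fᴴ * F).det ^ Fintype.card n := by
    have hJG : (dg g - cm K) * (Fᴴ * F) = 1 := mul_eq_one_comm.1 h.inv
    have h2 : (1 : Matrix (n × m) (n × m) ℂ) +
        ((A ⊗ₖ dg a + D ⊗ₖ dg d) * ((1 : Matrix n n ℂ) ⊗ₖ Fᴴ)) * ((1 : Matrix n n ℂ) ⊗ₖ F) =
        ((1 : Matrix n n ℂ) ⊗ₖ (dg g - cm K) + (A ⊗ₖ dg a + D ⊗ₖ dg d)) *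
          ((1 : Matrix n n ℂ) ⊗ₖ (Fᴴ * F)) := by
      have h5 : ((1 : Matrix n n ℂ) ⊗ₖ (dg g - cm K)) * ((1 : Matrix n n ℂ) ⊗ₖ (Fᴴ * F)) = 1 := by
        rw [← mul_kronecker_mul, Matrix.one_mul, hJG, one_kronecker_one]
      have h6 : ((1 : Matrix n n ℂ) ⊗ₖ Fᴴ) * ((1 : Matrix n n ℂ) ⊗ₖ F) =
          (1 : Matrix n n ℂ) ⊗ₖ (Fᴴ * F) := by
        rw [← mul_kronecker_mul, Matrix.one_mul]
      rw [Matrix.mul_assoc, h6, Matrix.add_mul (_ ⊗ₖ (dg g - cm K)) (_ + _), h5]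
    rw [dt_fact, det_one_add_mul_comm, h2, det_mul, det_kronecker, det_one, one_pow, one_mul,
      dt_net_eq, det_submatrix_equiv_self]
  rw [dt_det_eq hX, dt_det_eq (dt_net_posDef h hAD had), dt_det_eq hG] at hdet
  have h3 : Real.exp (Ld (1 + (A ⊗ₖ (F * dg a * Fᴴ) + D ⊗ₖ (F * dg d * Fᴴ)))) =
      Real.exp (Ld (Fᴴ * F) * Fintype.card n + Ld (net (let3 g a d A D) K)) := by
    have h4 : ((Real.exp (Ld (1 + (A ⊗ₖ (F * dg a * Fᴴ) + D ⊗ₖ (F * dg d * Fᴴ)))) : ℝ) : ℂ) =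
        ((Real.exp (Ld (net (let3 g a d A D) K)) * Real.exp (Ld (Fᴴ * F)) ^ Fintype.card n : ℝ)
          : ℂ) := by
      rw [hdet]
      push_cast
      ring
    rw [Complex.ofReal_inj.1 h4, Real.exp_add, mul_comm (Ld (Fᴴ * F)), Real.exp_nat_mul, mul_comm]
  exact Real.exp_injective h3

end Pool.Agent.LDS
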